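import Pool.Agent.Helper2.EC_C.Goals
import Pool.Agent.Helper2.EC_C.Basic

/-!
# MP_ecc237_nt, PART C, packet SG
-/

set_option autoImplicit false

open MeasureTheory Filter Topology Set

namespace ECC.PkSG

open EC237

/-- tail integrals of a continuous exponentially decaying function -/
theorem tail_int (g : ℝ → ℝ) (hc : ∀ y : ℝ, 0 < y → ContinuousAt g y)
    (hb : ∀ ε : ℝ, 0 < ε → ∃ C : ℝ, ∀ y : ℝ, ε ≤ y → |g y| ≤ C * Real.exp (-(Real.pi * y))) :
    (∀ ε : ℝ, 0 < ε → IntegrableOn g (Ioi ε)) ∧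
    (∀ y : ℝ, 0 < y → HasDerivAt (fun y => ∫ t in Ioi y, g t) (-g y) y) ∧
    (∀ ε : ℝ, 0 < ε → ∃ C : ℝ, ∀ y : ℝ, ε ≤ y →
      |∫ t in Ioi y, g t| ≤ C * Real.exp (-(Real.pi * y))) := by
  have hexp : ∀ ε : ℝ, IntegrableOn (fun y : ℝ => Real.exp (-(Real.pi * y))) (Ioi ε) := by
    intro ε
    have := integrableOn_exp_mul_Ioi (a := -Real.pi) (by linarith [Real.pi_pos]) ε
    simpa using this
  have hint : ∀ ε : ℝ, 0 < ε → IntegrableOn g (Ioi ε) := by
    intro ε hε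
    obtain ⟨C, hC⟩ := hb ε hε
    have hco : ContinuousOn g (Ioi ε) := fun y hy =>
      (hc y (lt_trans hε hy)).continuousWithinAt
    refine Integrable.mono' ((hexp ε).const_mul C) (hco.aestronglyMeasurable measurableSet_Ioi) ?_
    refine (ae_restrict_mem measurableSet_Ioi).mono fun y hy => ?_
    rw [Real.norm_eq_abs]
    exact hC y (le_of_lt hy)
  refine ⟨hint, ?_, ?_⟩
  · intro y hy
    have hy2 : 0 < y / 2 := by positivity
    have key : ∀ z : ℝ, 0 < z → ∫ t in Ioi z, g t =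
        (∫ t in Ioi (y / 2), g t) - ∫ t in (y / 2)..z, g t := by
      intro z hz
      rw [← intervalIntegral.integral_Ioi_sub_Ioi' (hint _ hy2) (hint _ hz)]
      ring
    have hsm : StronglyMeasurableAtFilter g (𝓝 y) volume := by
      refine ContinuousAt.stronglyMeasurableAtFilter isOpen_Ioi (s := Ioi (0:ℝ))
        (fun z hz => hc z hz) y hy
    have hii : IntervalIntegrable g volume (y / 2) y := by
      refine ContinuousOn.intervalIntegrable fun z hz => ?_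
      rw [uIcc_of_le (by linarith)] at hz
      exact (hc z (lt_of_lt_of_le hy2 hz.1)).continuousWithinAt
    have h1 := intervalIntegral.integral_hasDerivAt_right hii hsm (hc y hy)
    have h2 := h1.const_sub (∫ t in Ioi (y / 2), g t)
    refine h2.congr_of_eventuallyEq ?_
    filter_upwards [Ioi_mem_nhds hy] with z hz
    exact key z hz
  · intro ε hε
    obtain ⟨C, hC⟩ := hb ε hε
    refine ⟨C / Real.pi, fun y hy => ?_⟩
    have h1 : |∫ t in Ioi y, g t| ≤ ∫ t in Ioi y, C * Real.exp (-(Real.pi * t)) := by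
      rw [← Real.norm_eq_abs]
      refine norm_integral_le_of_norm_le ((hexp y).const_mul C) ?_
      refine (ae_restrict_mem measurableSet_Ioi).mono fun z hz => ?_
      rw [Real.norm_eq_abs]
      exact hC z (hy.trans (le_of_lt hz))
    refine h1.trans (le_of_eq ?_)
    rw [integral_const_mul]
    have h2 := integral_exp_mul_Ioi (a := -Real.pi) (by linarith [Real.pi_pos]) y
    have h3 : (fun t : ℝ => Real.exp (-(Real.pi * t))) = fun t => Real.exp (-Real.pi * t) := by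
      funext t; rw [neg_mul]
    rw [h3, h2, neg_mul]
    have := Real.pi_ne_zero
    field_simp

/-- the sign identity -/
theorem sgn_QQ (y : ℝ) (p : ℕ × ℕ) :
    sgn2 p * QQ y p = (-1) ^ (p.2 + 1) * Qn y ^ ((p.1 + 1) * (p.2 + 1)) := by
  unfold sgn2 QQ Qn
  rw [neg_pow (Real.exp (-(Real.pi * y))), ← Real.exp_nat_mul, ← mul_assoc, ← pow_add]
  have e1 : (-1:ℝ) ^ (p.2 + 1 + (p.1 + 1) * (p.2 + 1)) = (-1) ^ ((p.2 + 1) * p.1) := by
    have : p.2 + 1 + (p.1 + 1) * (p.2 + 1) = (p.2 + 1) * p.1 + 2 * (p.2 + 1) := by ring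
    rw [this, pow_add, pow_mul (-1:ℝ) 2]
    norm_num
  rw [e1]
  congr 2
  push_cast
  ring

theorem sum_eq {y : ℝ} (hy : 0 < y) :
    ∑' p : ℕ × ℕ, c3 p * sgn2 p * ((p.2:ℝ) + 1) * QQ y p =
      12 * GS (Qn y ^ 6) - 3 * GS (Qn y ^ 3) - 4 * GS (Qn y ^ 2) + GS (Qn y) := by
  have hq := abs_Qn_lt hy
  set q := Qn y with hqdef
  have f1 : PG (fun _ ν => (ν:ℝ)) := PG.N
  have f3 : PG (fun M ν => if 3 ∣ M then (ν:ℝ) else 0) := f1.ite (fun M _ => 3 ∣ M)
  have f2 : PG (fun M ν => if 2 ∣ ν then (ν:ℝ) else 0) := f1.ite (fun _ ν => 2 ∣ ν)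
  have f6 : PG (fun M ν => if 3 ∣ M then (if 2 ∣ ν then (ν:ℝ) else 0) else 0) :=
    f2.ite (fun M _ => 3 ∣ M)
  have e3 : LS (fun M ν => if 3 ∣ M then (ν:ℝ) else 0) q = GS (q ^ 3) :=
    LS_sieveM (fun _ ν => (ν:ℝ)) (d := 3) (by norm_num) q
  have e2 : ∀ r : ℝ, LS (fun M ν => if 2 ∣ ν then (ν:ℝ) else 0) r = 2 * GS (r ^ 2) := by
    intro r
    rw [LS_sieveN (fun _ ν => (ν:ℝ)) (d := 2) (by norm_num) r]
    unfold GS
    rw [← LS_mul_left]
    exact LS_congr (fun M ν _ _ => by push_cast; ring) _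
  have e6 : LS (fun M ν => if 3 ∣ M then (if 2 ∣ ν then (ν:ℝ) else 0) else 0) q =
      2 * GS (q ^ 6) := by
    rw [LS_sieveM (fun M ν => if 2 ∣ ν then (ν:ℝ) else 0) (d := 3) (by norm_num) q, e2 (q ^ 3),
      ← pow_mul]
  have hLS : ∑' p : ℕ × ℕ, c3 p * sgn2 p * ((p.2:ℝ) + 1) * QQ y p =
      LS (fun M ν => 6 * (if 3 ∣ M then (if 2 ∣ ν then (ν:ℝ) else 0) else 0)
        - 3 * (if 3 ∣ M then (ν:ℝ) else 0) - 2 * (if 2 ∣ ν then (ν:ℝ) else 0) + (ν:ℝ)) q := by
    unfold LS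
    refine tsum_congr fun p => ?_
    have e := sgn_QQ y p
    calc c3 p * sgn2 p * ((p.2:ℝ) + 1) * QQ y p
        = c3 p * ((p.2:ℝ) + 1) * (sgn2 p * QQ y p) := by ring
      _ = c3 p * ((p.2:ℝ) + 1) * ((-1) ^ (p.2 + 1) * q ^ ((p.1 + 1) * (p.2 + 1))) := by rw [e]
      _ = (c3 p * ((p.2:ℝ) + 1) * (-1) ^ (p.2 + 1)) * q ^ ((p.1 + 1) * (p.2 + 1)) := by ring
      _ = _ := ?_
    congr 1
    unfold c3
    have h3 : ((p.1 + 1) % 3 = 0) ↔ 3 ∣ p.1 + 1 := (Nat.dvd_iff_mod_eq_zero).symm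
    by_cases h3' : 3 ∣ p.1 + 1
    · rw [if_pos (h3.mpr h3')]
      by_cases h2 : 2 ∣ p.2 + 1
      · have h2' : Even (p.2 + 1) := even_iff_two_dvd.mpr h2
        rw [h2'.neg_one_pow]
        simp only [h3', h2, if_true]
        push_cast; ring
      · have h2' : Odd (p.2 + 1) := Nat.not_even_iff_odd.mp (by rwa [even_iff_two_dvd])
        rw [h2'.neg_one_pow]
        simp only [h3', h2, if_true, if_false]
        push_cast; ring
    · rw [if_neg (fun h => h3' (h3.mp h))]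
      by_cases h2 : 2 ∣ p.2 + 1
      · have h2' : Even (p.2 + 1) := even_iff_two_dvd.mpr h2
        rw [h2'.neg_one_pow]
        simp only [h3', h2, if_true, if_false]
        push_cast; ring
      · have h2' : Odd (p.2 + 1) := Nat.not_even_iff_odd.mp (by rwa [even_iff_two_dvd])
        rw [h2'.neg_one_pow]
        simp only [h3', h2, if_false]
        push_cast; ring
  rw [hLS, LS_add ((((PG.const 6).mul f6).sub ((PG.const 3).mul f3)).sub ((PG.const 2).mul f2)) f1 hq,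
    LS_sub (((PG.const 6).mul f6).sub ((PG.const 3).mul f3)) ((PG.const 2).mul f2) hq,
    LS_sub ((PG.const 6).mul f6) ((PG.const 3).mul f3) hq,
    LS_mul_left 6, LS_mul_left 3, LS_mul_left 2, e6, e3, e2]
  unfold GS
  ring

theorem sgp0_eq (th : G_TH) {y : ℝ} (hy : 0 < y) :
    sgp0 y = Real.pi ^ 2 / 4 * (AA (Qn y) * CC (Qn y)) - Real.pi ^ 2 / 4 := by
  unfold sgp0
  rw [sum_eq hy]
  obtain ⟨-, -, -, h, -⟩ := th (Qn y) (abs_Qn_lt hy)
  rw [h]
  ring

theorem AC_cont {y : ℝ} (hy : 0 < y) : ContinuousAt (fun y => AA (Qn y) * CC (Qn y)) y := by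
  have h1 := (aS_Qn_deriv hy).continuousAt
  have h2 := (aS_Qn2_deriv hy).continuousAt
  unfold AA CC
  exact ((h2.const_mul 2).sub h1).mul ((h1.add (h2.const_mul 2)).div_const 3)

theorem sgp0_cont (th : G_TH) {y : ℝ} (hy : 0 < y) : ContinuousAt sgp0 y := by
  have h : ContinuousAt (fun y => Real.pi ^ 2 / 4 * (AA (Qn y) * CC (Qn y)) - Real.pi ^ 2 / 4) y :=
    ((AC_cont hy).const_mul (Real.pi ^ 2 / 4)).sub continuousAt_const
  refine h.congr_of_eventuallyEq ?_
  filter_upwards [Ioi_mem_nhds hy] with z hz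
  exact sgp0_eq th hz

theorem GS_bound {ε : ℝ} (hε : 0 < ε) : ∃ C : ℝ, 0 ≤ C ∧ ∀ y : ℝ, ε ≤ y → ∀ n : ℕ, 1 ≤ n →
    |GS (Qn y ^ n)| ≤ C * Real.exp (-(Real.pi * y)) := by
  have hr : Real.exp (-(Real.pi * ε)) < 1 := by
    rw [Real.exp_lt_one_iff]; have := mul_pos Real.pi_pos hε; linarith
  obtain ⟨C, hC, h⟩ := LS_bound PG.N hr
  refine ⟨C, hC, fun y hy n hn => ?_⟩
  have hy0 : 0 < y := lt_of_lt_of_le hε hy
  have h1 : |Qn y ^ n| ≤ Real.exp (-(Real.pi * y)) := by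
    rw [abs_pow]
    have h2 : |Qn y| ^ n ≤ |Qn y| ^ 1 :=
      pow_le_pow_of_le_one (abs_nonneg _) (abs_Qn_lt hy0).le hn
    rw [pow_one] at h2
    rwa [← abs_Qn y]
  have h2 : Real.exp (-(Real.pi * y)) ≤ Real.exp (-(Real.pi * ε)) := by
    rw [Real.exp_le_exp]
    have := mul_le_mul_of_nonneg_left hy Real.pi_pos.le
    linarith
  exact (h (Qn y ^ n) (h1.trans h2)).trans (mul_le_mul_of_nonneg_left h1 hC)

theorem sgp0_bound (ε : ℝ) (hε : 0 < ε) :
    ∃ C : ℝ, ∀ y : ℝ, ε ≤ y → |sgp0 y| ≤ C * Real.exp (-(Real.pi * y)) := by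
  obtain ⟨C, hC, h⟩ := GS_bound hε
  refine ⟨Real.pi ^ 2 * (20 * C), fun y hy => ?_⟩
  have hy0 : 0 < y := lt_of_lt_of_le hε hy
  unfold sgp0
  rw [sum_eq hy0, abs_neg, abs_mul, abs_of_pos (by positivity : (0:ℝ) < Real.pi ^ 2), mul_assoc]
  refine mul_le_mul_of_nonneg_left ?_ (by positivity)
  have h1 := h y hy 1 le_rfl
  have h2 := h y hy 2 (by norm_num)
  have h3 := h y hy 3 (by norm_num)
  have h6 := h y hy 6 (by norm_num)
  rw [pow_one] at h1
  rw [abs_le] at h1 h2 h3 h6 ⊢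
  constructor <;> linarith [h1.1, h1.2, h2.1, h2.2, h3.1, h3.2, h6.1, h6.2]

theorem sg_ (th : G_TH) (w_ : G_W) : G_SG := by
  obtain ⟨hint, hder, hbd⟩ := tail_int sgp0 (fun y hy => sgp0_cont th hy) sgp0_bound
  have hsgp : ∀ y : ℝ, 0 < y → sgp y = Real.pi ^ 2 / 4 * (AA (Qn y) * CC (Qn y)) := by
    intro y hy
    unfold sgp
    rw [sgp0_eq th hy]; ring
  have hsg : ∀ y : ℝ, 0 < y → HasDerivAt sg (sgp y) y := by
    intro y hy
    unfold sg sgp
    have h1 : HasDerivAt (fun y : ℝ => Real.pi ^ 2 / 4 * y - Real.pi / 2 * Real.log 3)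
        (Real.pi ^ 2 / 4) y := by
      simpa using ((hasDerivAt_id y).const_mul (Real.pi ^ 2 / 4)).sub_const
        (Real.pi / 2 * Real.log 3)
    refine (h1.sub (hder y hy)).congr_deriv ?_
    ring
  -- the constant function
  obtain ⟨hw, Cw, hCw⟩ := w_
  set F : ℝ → ℝ := fun y => Real.log (ww y) + 4 / Real.pi * sg y with hF
  have hFd : ∀ y : ℝ, 0 < y → HasDerivAt F 0 y := by
    intro y hy
    obtain ⟨hwp, hwd⟩ := hw y hy
    have h1 := hwd.log hwp.ne'
    have h2 := (hsg y hy).const_mul (4 / Real.pi)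
    refine (h1.add h2).congr_deriv ?_
    rw [hsgp y hy]
    have := Real.pi_ne_zero
    have := hwp.ne'
    field_simp
    ring
  have hconst : ∀ x : ℝ, 0 < x → ∀ y : ℝ, 0 < y → F x = F y := by
    intro x hx y hy
    have hcv : Convex ℝ (Ioi (0:ℝ)) := convex_Ioi 0
    refine hcv.is_const_of_fderivWithin_eq_zero (𝕜 := ℝ) (f := F) ?_ ?_ hx hy
    · intro z hz
      exact (hFd z hz).differentiableAt.differentiableWithinAt
    · intro z hz
      rw [fderivWithin_of_isOpen isOpen_Ioi hz]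
      ext
      simp [(hFd z hz).deriv]
  -- the limit
  have hexp0 : Tendsto (fun y : ℝ => Real.exp (-(Real.pi * y))) atTop (𝓝 0) := by
    refine Real.tendsto_exp_neg_atTop_nhds_zero.comp ?_
    exact tendsto_id.const_mul_atTop Real.pi_pos
  obtain ⟨C1, hC1⟩ := hbd 1 one_pos
  have hlog9 : Real.log 9 = 2 * Real.log 3 := by
    rw [show (9:ℝ) = 3 ^ 2 by norm_num, Real.log_pow]; norm_num
  have hlim : Tendsto F atTop (𝓝 0) := by
    have hb : ∀ᶠ y : ℝ in atTop, ‖F y‖ ≤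
        (Cw + 4 / Real.pi * C1) * Real.exp (-(Real.pi * y)) := by
      filter_upwards [eventually_ge_atTop (1:ℝ)] with y hy
      have h1 := hCw y (by linarith)
      have h2 := hC1 y hy
      have e : F y = (Real.log (ww y) - (Real.log 9 - Real.pi * y))
          - 4 / Real.pi * ∫ t in Ioi y, sgp0 t := by
        simp only [hF]
        unfold sg
        rw [hlog9]
        have := Real.pi_ne_zero
        field_simp
        ring
      rw [e, Real.norm_eq_abs]
      refine (abs_sub _ _).trans ?_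
      rw [abs_mul, abs_of_pos (by have := Real.pi_pos; positivity : (0:ℝ) < 4 / Real.pi), add_mul,
        mul_assoc]
      exact add_le_add h1 (mul_le_mul_of_nonneg_left h2 (by have := Real.pi_pos; positivity))
    refine squeeze_zero_norm' hb ?_
    simpa using hexp0.const_mul (Cw + 4 / Real.pi * C1)
  have hF0 : ∀ y : ℝ, 0 < y → F y = 0 := by
    intro y hy
    refine tendsto_nhds_unique (tendsto_const_nhds (x := F y) (f := (atTop : Filter ℝ))) ?_
    refine hlim.congr' ?_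
    filter_upwards [eventually_gt_atTop (0:ℝ)] with z hz
    exact hconst z hz y hy
  intro y hy
  refine ⟨hsgp y hy, hsg y hy, ?_⟩
  have h0 := hF0 y hy
  simp only [hF] at h0
  have h1 : -(4 / Real.pi) * sg y = Real.log (ww y) := by linarith
  rw [h1, Real.exp_log (hw y hy).1]

end ECC.PkSG
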